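import Mathlib
import Pool.Agent.Q87.Hardy

/-!
# A subnormal block Toeplitz operator with `Φ = B Φ*` that is neither normal nor analytic

`n = 2`, `Φ(z) = diag (z + z⁻¹, z)`, `B(z) = diag (1, z ^ 2)`. The operator `T_Φ` is the direct sum of
a selfadjoint operator and the unilateral shift.
-/

set_option autoImplicit false

open MeasureTheory AddCircle
open scoped ComplexConjugate InnerProductSpace ENNReal

namespace Pool.Agent.Results.MP_e84edf_an.NeitherNormalNorAnalytic

open Q87.Hardy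

/-- The Hardy space `H²` of `ℂⁿ`-valued functions, as the Hilbert direct sum of `n` copies of the
scalar Hardy space. -/
def H2n (n : ℕ) : Type := PiLp 2 (fun _ : Fin n => H2)

noncomputable instance instN (n : ℕ) : NormedAddCommGroup (H2n n) :=
  PiLp.normedAddCommGroup 2 (fun _ : Fin n => H2)

noncomputable instance instI (n : ℕ) : InnerProductSpace ℂ (H2n n) :=
  PiLp.innerProductSpace (fun _ : Fin n => H2)

theorem instC0 (n : ℕ) : CompleteSpace (PiLp 2 (fun _ : Fin n => H2)) := inferInstance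

instance instC (n : ℕ) : CompleteSpace (H2n n) := instC0 n

/-- The bounded operators on `H²` of `ℂⁿ`-valued functions. -/
abbrev Op (n : ℕ) : Type := H2n n →L[ℂ] H2n n

/-- The `i`-th component of an element of the vector valued Hardy space. -/
noncomputable def co {n : ℕ} (f : H2n n) (i : Fin n) : L2 :=
  ((WithLp.ofLp (p := 2) (V := Fin n → H2) f) i : H2)

/-- `Φ` is a bounded measurable matrix valued function on the circle. -/
def IsLinfty {n : ℕ} (Φ : UnitAddCircle → Matrix (Fin n) (Fin n) ℂ) : Prop :=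
  (∀ i j, Measurable fun θ => Φ θ i j) ∧ ∃ C : ℝ, ∀ θ i j, ‖Φ θ i j‖ ≤ C

/-- `T` is the block Toeplitz operator with symbol `Φ`, that is `T f = P (Φ f)` with `P` the
orthogonal projection onto the Hardy space: for all `f`, the `i`-th components of `T f` and of
`Φ f` have the same inner product with every `h` in the scalar Hardy space. -/
def IsToeplitz {n : ℕ} (Φ : UnitAddCircle → Matrix (Fin n) (Fin n) ℂ)
    (T : Op n) : Prop :=
  ∀ (f : H2n n) (i : Fin n), ∀ h ∈ H2,
    ∫ θ, conj (h θ) * co (T f) i θ ∂haarAddCircle =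
      ∫ θ, conj (h θ) * ∑ j, Φ θ i j * co f j θ ∂haarAddCircle

/-- `Φ` is analytic: all entries have vanishing Fourier coefficients of negative index. -/
def IsAnalytic {n : ℕ} (Φ : UnitAddCircle → Matrix (Fin n) (Fin n) ℂ) : Prop :=
  ∀ i j, ∀ k : ℤ, k < 0 → fourierCoeff (fun θ => Φ θ i j) k = 0

/-- Subnormal operators: restrictions of normal operators to invariant subspaces. -/
def IsSubnormal {X : Type} [NormedAddCommGroup X] [InnerProductSpace ℂ X]
    (T : X →L[ℂ] X) : Prop :=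
  ∃ (K : Type) (_ : NormedAddCommGroup K) (_ : InnerProductSpace ℂ K) (_ : CompleteSpace K)
    (N : K →L[ℂ] K) (V : X →ₗᵢ[ℂ] K), IsStarNormal N ∧ ∀ x, N (V x) = V (T x)

/-- The factor `b_α(z) P + (I - P)`. -/
noncomputable def factor {n : ℕ} (a : ℂ) (P : Matrix (Fin n) (Fin n) ℂ) (z : ℂ) :
    Matrix (Fin n) (Fin n) ℂ := ((z - a) / (1 - conj a * z)) • P + (1 - P)

/-- Finite Blaschke–Potapov products. -/
def IsBlaschkePotapov {n : ℕ} (B : ℂ → Matrix (Fin n) (Fin n) ℂ) : Prop :=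
  ∃ (V : Matrix (Fin n) (Fin n) ℂ) (m : ℕ) (a : Fin m → ℂ) (P : Fin m → Matrix (Fin n) (Fin n) ℂ),
    V ∈ Matrix.unitaryGroup (Fin n) ℂ ∧ (∀ k, ‖a k‖ < 1) ∧
    (∀ k, P k ≠ 0 ∧ (P k).conjTranspose = P k ∧ P k * P k = P k) ∧
    ∀ z : ℂ, ‖z‖ = 1 → B z = V * (List.ofFn fun k => factor (a k) (P k) z).prod

/-- The scalar Toeplitz operator of a continuous symbol. -/
noncomputable def toep (φ : C(UnitAddCircle, ℂ)) : H2 →L[ℂ] H2 :=
  (H2.orthogonalProjectionOnto.comp (mulOp φ)).comp H2.subtypeL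

theorem inner_toep (φ : C(UnitAddCircle, ℂ)) (f g : H2) :
    ⟪g, toep φ f⟫_ℂ = ⟪(g : L2), mulOp φ f⟫_ℂ :=
  Submodule.inner_orthogonalProjectionOnto_eq_of_mem_left g _

theorem toep_coe_z (f : H2) : ((toep (fourier 1) f : H2) : L2) = mulOp (fourier 1) f := by
  have h := z_mem (f : L2) f.2
  exact Submodule.starProjection_eq_self_iff.2 h

/-- The symbols of the two summands. -/
noncomputable def sy : Fin 2 → C(UnitAddCircle, ℂ) := ![fourier 1 + fourier (-1), fourier 1]

/-- The block Toeplitz operator on the direct sum. -/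
noncomputable def TT0 : PiLp 2 (fun _ : Fin 2 => H2) →L[ℂ] PiLp 2 (fun _ : Fin 2 => H2) :=
  ((PiLp.continuousLinearEquiv 2 ℂ (fun _ : Fin 2 => H2)).symm :
      (∀ _ : Fin 2, H2) →L[ℂ] PiLp 2 (fun _ : Fin 2 => H2)).comp
    ((ContinuousLinearMap.pi fun i : Fin 2 => (toep (sy i)).comp
      (ContinuousLinearMap.proj (R := ℂ) (φ := fun _ : Fin 2 => H2) i)).comp
      ((PiLp.continuousLinearEquiv 2 ℂ (fun _ : Fin 2 => H2)) :
        PiLp 2 (fun _ : Fin 2 => H2) →L[ℂ] (∀ _ : Fin 2, H2)))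

theorem TT0_apply (f : PiLp 2 (fun _ : Fin 2 => H2)) (i : Fin 2) :
    TT0 f i = toep (sy i) (f i) := rfl

/-- The block Toeplitz operator. -/
noncomputable def TT : Op 2 := TT0

/-- The symbol. -/
noncomputable def Phi (θ : UnitAddCircle) : Matrix (Fin 2) (Fin 2) ℂ :=
  Matrix.diagonal fun i => sy i θ

theorem isToeplitz : IsToeplitz Phi TT := by
  intro f i h hh
  have h1 : ∀ θ, ∑ j, Phi θ i j * co f j θ = sy i θ * co f i θ := by
    intro θ
    rw [Finset.sum_eq_single i]
    · show Matrix.diagonal (fun i => sy i θ) i i * _ = _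
      rw [Matrix.diagonal_apply_eq]
    · intro j _ hji
      show Matrix.diagonal (fun i => sy i θ) i j * _ = 0
      rw [Matrix.diagonal_apply_ne _ hji.symm, zero_mul]
    · intro h; exact absurd (Finset.mem_univ i) h
  simp only [h1]
  rw [← inner_mulOp, ← inner_eq]
  exact inner_toep (sy i) _ (⟨h, hh⟩ : H2)

theorem sa_toep (f g : H2) : ⟪g, toep (sy 0) f⟫_ℂ = ⟪toep (sy 0) g, f⟫_ℂ := by
  have hs : star (sy 0) = sy 0 := by
    show star (fourier 1 + fourier (-1) : C(UnitAddCircle, ℂ)) = fourier 1 + fourier (-1)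
    rw [star_add, star_fourier, star_fourier, neg_neg, add_comm]
  have h1 : ⟪(g : L2), mulOp (sy 0) f⟫_ℂ = conj ⟪(f : L2), mulOp (sy 0) g⟫_ℂ := by
    rw [mulOp_adj, hs, ← inner_conj_symm]
  have h2 := inner_toep (sy 0) f g
  have h3 := inner_toep (sy 0) g f
  have h4 : ⟪toep (sy 0) g, f⟫_ℂ = conj ⟪f, toep (sy 0) g⟫_ℂ :=
    (inner_conj_symm (𝕜 := ℂ) (toep (sy 0) g) f).symm
  rw [h2, h4, h3, h1]

/-- The space of the normal extension. -/
abbrev KK : Type := WithLp 2 (H2 × L2)

/-- Direct sum of `T_{z + z⁻¹}` and a multiplication operator. -/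
noncomputable def NN (φ : C(UnitAddCircle, ℂ)) : KK →L[ℂ] KK :=
  ((WithLp.prodContinuousLinearEquiv 2 ℂ H2 L2).symm : (H2 × L2) →L[ℂ] KK).comp
    ((((toep (sy 0)).comp (ContinuousLinearMap.fst ℂ H2 L2)).prod
      ((mulOp φ).comp (ContinuousLinearMap.snd ℂ H2 L2))).comp
      ((WithLp.prodContinuousLinearEquiv 2 ℂ H2 L2) : KK →L[ℂ] (H2 × L2)))

theorem NN_apply (φ : C(UnitAddCircle, ℂ)) (x : KK) :
    NN φ x = WithLp.toLp 2 (toep (sy 0) x.fst, mulOp φ x.snd) := rfl

theorem NN_adj : ContinuousLinearMap.adjoint (NN (fourier 1)) = NN (fourier (-1)) := by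
  symm
  rw [ContinuousLinearMap.eq_adjoint_iff]
  intro x y
  rw [WithLp.prod_inner_apply, WithLp.prod_inner_apply]
  show ⟪toep (sy 0) x.fst, y.fst⟫_ℂ + ⟪mulOp (fourier (-1)) x.snd, y.snd⟫_ℂ =
    ⟪x.fst, toep (sy 0) y.fst⟫_ℂ + ⟪x.snd, mulOp (fourier 1) y.snd⟫_ℂ
  rw [sa_toep, mulOp_adj, star_fourier]

theorem NN_normal : IsStarNormal (NN (fourier 1)) := by
  constructor
  have h0 : star (NN (fourier 1)) = NN (fourier (-1)) := NN_adj
  rw [h0]
  ext1 x
  show NN _ (NN _ x) = NN _ (NN _ x)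
  rw [NN_apply, NN_apply, NN_apply, NN_apply]
  show WithLp.toLp 2 (toep (sy 0) (toep (sy 0) x.fst),
      mulOp (fourier (-1)) (mulOp (fourier 1) x.snd)) =
    WithLp.toLp 2 (toep (sy 0) (toep (sy 0) x.fst),
      mulOp (fourier 1) (mulOp (fourier (-1)) x.snd))
  rw [mulOp_mulOp, mulOp_mulOp, neg_fourier_mul, fourier_mul_neg]

/-- The embedding. -/
noncomputable def VV0 : PiLp 2 (fun _ : Fin 2 => H2) →ₗᵢ[ℂ] KK where
  toFun f := WithLp.toLp 2 (f 0, (f 1 : L2))
  map_add' f g := rfl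
  map_smul' c f := rfl
  norm_map' f := by
    have h : ‖(WithLp.toLp 2 (f 0, (f 1 : L2)) : KK)‖ ^ 2 = ‖f‖ ^ 2 := by
      rw [WithLp.prod_norm_sq_eq_of_L2, PiLp.norm_sq_eq_of_L2, Fin.sum_univ_two]
      rfl
    exact (pow_left_inj₀ (norm_nonneg _) (norm_nonneg _) two_ne_zero).1 h

/-- The embedding. -/
noncomputable def VV : H2n 2 →ₗᵢ[ℂ] KK := VV0

theorem VV_TT (f : PiLp 2 (fun _ : Fin 2 => H2)) : NN (fourier 1) (VV0 f) = VV0 (TT0 f) := by
  rw [NN_apply]
  show WithLp.toLp 2 (toep (sy 0) (f 0), mulOp (fourier 1) (f 1 : L2)) =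
    WithLp.toLp 2 (TT0 f 0, (TT0 f 1 : L2))
  rw [TT0_apply, TT0_apply, ← toep_coe_z]
  rfl

theorem subnormal : IsSubnormal TT :=
  ⟨KK, inferInstance, inferInstance, inferInstance, NN (fourier 1), VV, NN_normal, VV_TT⟩

/-- The constant function `1`. -/
noncomputable def one : H2 := ⟨fourierLp 2 0, fourier_mem 0 le_rfl⟩

/-- The vector `(0, 1)`. -/
noncomputable def x00 : PiLp 2 (fun _ : Fin 2 => H2) := WithLp.toLp 2 ![0, one]

/-- The vector `(0, 1)`. -/
noncomputable def x0 : H2n 2 := x00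

theorem inner_x00 (y : PiLp 2 (fun _ : Fin 2 => H2)) :
    @inner ℂ (PiLp 2 (fun _ : Fin 2 => H2)) InnerProductSpace.toInner (TT0 y) x00 = 0 := by
  have := PiLp.inner_apply (𝕜 := ℂ) (TT0 y) x00
  refine this.trans ?_
  rw [Fin.sum_univ_two]
  show ⟪TT0 y 0, (0 : H2)⟫_ℂ + ⟪TT0 y 1, one⟫_ℂ = 0
  rw [inner_zero_right, zero_add, TT0_apply]
  show ⟪((toep (fourier 1) (y 1) : H2) : L2), (fourierLp 2 0 : L2)⟫_ℂ = 0
  rw [toep_coe_z, ← inner_conj_symm, mulOp_adj, star_fourier, mulOp_fourier,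
    (mem_H2 _).1 (y 1).2 _ (by norm_num), map_zero]

theorem TT0_x00 : TT0 x00 ≠ 0 := by
  intro h4
  have h5 : TT0 x00 1 = 0 := by rw [h4]; rfl
  rw [TT0_apply] at h5
  have h6 : (((toep (fourier 1) one : H2)) : L2) = 0 := by
    have : toep (fourier 1) one = 0 := h5
    rw [this]; rfl
  rw [toep_coe_z] at h6
  have h7 : (fourierLp 2 1 : L2) = 0 := by
    rw [← h6]
    show _ = mulOp (fourier 1) (fourierLp 2 0)
    rw [mulOp_fourier, add_zero]
  have h8 := (orthonormal_fourier (T := (1 : ℝ))).1 1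
  rw [h7, norm_zero] at h8
  exact zero_ne_one h8

theorem not_normal : ¬ IsStarNormal TT := by
  intro h
  have h0 : ∀ y : H2n 2, @inner ℂ (H2n 2) InnerProductSpace.toInner (TT y) x0 = 0 := inner_x00
  have h1 : (star TT) x0 = 0 := by
    rw [ContinuousLinearMap.star_eq_adjoint]
    apply ext_inner_left ℂ
    intro y
    rw [ContinuousLinearMap.adjoint_inner_right, inner_zero_right]
    exact h0 y
  have h2 : (star TT) (TT x0) = 0 := by
    have h9 : (star TT) (TT x0) = TT ((star TT) x0) :=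
      congrArg (fun A : Op 2 => A x0) h.star_comm_self.eq
    rw [h9, h1, map_zero]
  have h3 := ContinuousLinearMap.adjoint_inner_right (𝕜 := ℂ) TT x0 (TT x0)
  rw [← ContinuousLinearMap.star_eq_adjoint, h2, inner_zero_right] at h3
  have h4 : TT x0 = 0 := inner_self_eq_zero.1 h3.symm
  exact TT0_x00 h4

theorem not_analytic : ¬ IsAnalytic Phi := by
  intro h
  have h1 := h 0 0 (-1) (by norm_num)
  have h2 : fourierCoeff (fun θ => Phi θ 0 0) (-1) =
      ⟪(fourierLp 2 (-1) : L2), fourierLp 2 1 + fourierLp 2 (-1)⟫_ℂ := by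
    unfold fourierCoeff
    rw [inner_eq]
    refine integral_congr_ae ?_
    filter_upwards [coeFn_fourierLp 2 (-1), coeFn_fourierLp 2 1,
      Lp.coeFn_add (fourierLp 2 1 : L2) (fourierLp 2 (-1))] with θ h3 h4 h5
    rw [h5, Pi.add_apply, h3, h4, smul_eq_mul, fourier_neg]
    show _ * Matrix.diagonal (fun i => sy i θ) 0 0 = _
    rw [Matrix.diagonal_apply_eq]
    rfl
  rw [h2, inner_add_right] at h1
  have h3 := (orthonormal_fourier (T := (1 : ℝ))).2 (show (-1 : ℤ) ≠ 1 by norm_num)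
  have h4 : ⟪(fourierLp 2 (-1) : L2), fourierLp 2 (-1)⟫_ℂ = 1 := by
    rw [inner_self_eq_norm_sq_to_K, (orthonormal_fourier (T := (1 : ℝ))).1 (-1)]
    norm_num
  rw [h3, h4] at h1
  norm_num at h1

/-- The projection onto the second coordinate. -/
noncomputable def PP : Matrix (Fin 2) (Fin 2) ℂ := Matrix.diagonal ![0, 1]

theorem bp : IsBlaschkePotapov (fun z : ℂ => Matrix.diagonal ![1, z ^ 2]) := by
  refine ⟨1, 2, fun _ => 0, fun _ => PP, one_mem _, fun _ => by simp, fun _ => ⟨?_, ?_, ?_⟩, ?_⟩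
  · intro h
    have := congrFun (congrFun h 1) 1
    simp [PP] at this
  · ext i j; fin_cases i <;> fin_cases j <;> simp [PP, Matrix.conjTranspose_apply]
  · ext i j; fin_cases i <;> fin_cases j <;> simp [PP, Matrix.mul_apply, Fin.sum_univ_two]
  · intro z _
    ext i j
    fin_cases i <;> fin_cases j <;>
      simp [PP, factor, Matrix.mul_apply, Fin.sum_univ_two, Matrix.one_apply, sq]

/-- There is a bounded `2 × 2` matrix function `Φ` on the circle and a finite Blaschke–Potapov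
product `B` with `Φ = B Φ*` such that `T_Φ` is subnormal, but neither normal nor analytic. -/
theorem result : ∃ (Φ : UnitAddCircle → Matrix (Fin 2) (Fin 2) ℂ)
    (B : ℂ → Matrix (Fin 2) (Fin 2) ℂ) (T : Op 2),
    IsLinfty Φ ∧ IsToeplitz Φ T ∧ IsSubnormal T ∧ IsBlaschkePotapov B ∧
    (∀ᵐ θ ∂(haarAddCircle (T := (1 : ℝ))), Φ θ = B (fourier 1 θ) * (Φ θ).conjTranspose) ∧
    ¬ IsStarNormal T ∧ ¬ IsAnalytic Φ := by
  refine ⟨Phi, _, TT, ⟨?_, ?_⟩, isToeplitz, subnormal, bp, ?_, not_normal, not_analytic⟩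
  · intro i j
    by_cases hij : i = j
    · subst hij
      have : (fun θ => Phi θ i i) = fun θ => sy i θ := by
        funext θ
        show Matrix.diagonal (fun i => sy i θ) i i = _
        rw [Matrix.diagonal_apply_eq]
      rw [this]
      exact (sy i).continuous.measurable
    · have : (fun θ => Phi θ i j) = fun _ => 0 := by
        funext θ
        show Matrix.diagonal (fun i => sy i θ) i j = _
        rw [Matrix.diagonal_apply_ne _ hij]
      rw [this]
      exact measurable_const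
  · refine ⟨‖sy 0‖ + ‖sy 1‖, fun θ i j => ?_⟩
    by_cases hij : i = j
    · subst hij
      have : Phi θ i i = sy i θ := by
        show Matrix.diagonal (fun i => sy i θ) i i = _
        rw [Matrix.diagonal_apply_eq]
      rw [this]
      refine ((sy i).norm_coe_le_norm θ).trans ?_
      fin_cases i
      · exact le_add_of_nonneg_right (norm_nonneg _)
      · exact le_add_of_nonneg_left (norm_nonneg _)
    · have : Phi θ i j = 0 := by
        show Matrix.diagonal (fun i => sy i θ) i j = _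
        rw [Matrix.diagonal_apply_ne _ hij]
      rw [this, norm_zero]
      positivity
  · refine Filter.Eventually.of_forall fun θ => ?_
    have hz : (fourier 1 θ : ℂ) * conj (fourier 1 θ : ℂ) = 1 := by
      rw [← fourier_neg, ← fourier_add]; simp
    have e0 : sy 0 θ = fourier 1 θ + conj (fourier 1 θ) := by
      rw [← fourier_neg]; rfl
    have e1 : sy 1 θ = fourier 1 θ := rfl
    ext i j
    fin_cases i <;> fin_cases j
    · simp [Phi, Matrix.mul_apply, Fin.sum_univ_two, e0, add_comm]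
    · simp [Phi, Matrix.mul_apply, Fin.sum_univ_two]
    · simp [Phi, Matrix.mul_apply, Fin.sum_univ_two]
    · rw [fourier_one] at hz e1
      simp only [Phi, Matrix.mul_apply, Fin.sum_univ_two, Matrix.conjTranspose_apply]
      simp [e1]
      linear_combination (-(toCircle θ : ℂ)) * hz

end Pool.Agent.Results.MP_e84edf_an.NeitherNormalNorAnalytic
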